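import Pool.Agent.W647.HY4

/-!
# The coaction of a group ring defined by a homomorphism of groups

For a homomorphism `π : Γ → Q` the group ring `R[Γ]` is graded by `Q`; the coaction
`R[Γ] → (R[Γ])[Q]` sends `γ` to `γ π(γ)`.
-/

set_option autoImplicit false

namespace Pool.Agent.Q202.KT

open Pool.Agent.W647.HX1 Pool.Agent.W647.HV1

variable {Γ : Type*} {Q : Type*} {R : Type*} [Group Γ] [Group Q] [Ring R]

open Classical in
/-- The part of the element `x` of the group ring `R[Γ]` which is supported on the elements of `Γ`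
with image `q` under `π`. -/
noncomputable def part (π : Γ →* Q) (q : Q) (x : MonoidAlgebra R Γ) : MonoidAlgebra R Γ :=
  MonoidAlgebra.ofCoeff (x.coeff.filter fun s => π s = q)

lemma part_zero (π : Γ →* Q) (q : Q) : part π q (0 : MonoidAlgebra R Γ) = 0 := by
  classical
  unfold part
  rw [MonoidAlgebra.coeff_zero, Finsupp.filter_zero]
  rfl

lemma part_add (π : Γ →* Q) (q : Q) (x y : MonoidAlgebra R Γ) :
    part π q (x + y) = part π q x + part π q y := by
  classical
  unfold part
  rw [MonoidAlgebra.coeff_add, Finsupp.filter_add]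
  rfl

open Classical in
lemma part_single (π : Γ →* Q) (q : Q) (s : Γ) (r : R) :
    part π q (MonoidAlgebra.single s r) = if π s = q then MonoidAlgebra.single s r else 0 := by
  unfold part
  rw [MonoidAlgebra.coeff_single]
  split_ifs with h
  · rw [Finsupp.filter_single_of_pos (fun s => π s = q) h]
    rfl
  · rw [Finsupp.filter_single_of_neg (fun s => π s = q) h]
    rfl

/-- the elements `γ π(γ)` -/
noncomputable def diag (π : Γ →* Q) : Γ →* MonoidAlgebra (MonoidAlgebra R Γ) Q where
  toFun s := MonoidAlgebra.single (π s) (MonoidAlgebra.single s 1)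
  map_one' := by
    rw [map_one, ← MonoidAlgebra.one_def, ← MonoidAlgebra.one_def]
  map_mul' s t := by
    rw [map_mul, MonoidAlgebra.single_mul_single, MonoidAlgebra.single_mul_single, one_mul]

/-- the coefficients -/
noncomputable def cst : R →+* MonoidAlgebra (MonoidAlgebra R Γ) Q :=
  (MonoidAlgebra.singleOneRingHom : MonoidAlgebra R Γ →+* MonoidAlgebra (MonoidAlgebra R Γ) Q).comp
    (MonoidAlgebra.singleOneRingHom : R →+* MonoidAlgebra R Γ)

lemma cst_apply (r : R) : (cst r : MonoidAlgebra (MonoidAlgebra R Γ) Q) =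
    MonoidAlgebra.single 1 (MonoidAlgebra.single 1 r) := rfl

/-- **the coaction** -/
noncomputable def coact (π : Γ →* Q) :
    MonoidAlgebra R Γ →+* MonoidAlgebra (MonoidAlgebra R Γ) Q :=
  MonoidAlgebra.liftNCRingHom cst (diag π) fun r s => by
    show cst r * MonoidAlgebra.single (π s) (MonoidAlgebra.single s 1) =
      MonoidAlgebra.single (π s) (MonoidAlgebra.single s 1) * cst r
    rw [cst_apply, MonoidAlgebra.single_mul_single, MonoidAlgebra.single_mul_single,
      MonoidAlgebra.single_mul_single, MonoidAlgebra.single_mul_single]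
    simp

lemma coact_single (π : Γ →* Q) (s : Γ) (r : R) :
    coact π (MonoidAlgebra.single s r) =
      MonoidAlgebra.single (π s) (MonoidAlgebra.single s r) := by
  unfold coact
  rw [MonoidAlgebra.liftNCRingHom_single, cst_apply]
  show _ * MonoidAlgebra.single (π s) (MonoidAlgebra.single s 1) = _
  rw [MonoidAlgebra.single_mul_single, MonoidAlgebra.single_mul_single]
  simp

lemma coact_coeff (π : Γ →* Q) (x : MonoidAlgebra R Γ) (q : Q) :
    (coact π x).coeff q = part π q x := by
  classical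
  induction x using MonoidAlgebra.induction_linear with
  | zero => rw [map_zero, part_zero]; rfl
  | add x y hx hy =>
    rw [map_add, MonoidAlgebra.coeff_add, Finsupp.add_apply, hx, hy, part_add]
  | single s r =>
    rw [coact_single, part_single, MonoidAlgebra.coeff_single, Finsupp.single_apply]

variable {d : Type*} [Fintype d] [DecidableEq d]

lemma cm_coact (π : Γ →* Q) (u : Matrix d d (MonoidAlgebra R Γ)) :
    cm ((coact π).mapMatrix u) = fun q => u.map (part π q) := by
  funext q
  ext1 i j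
  exact coact_coeff π (u i j) q

variable {A : Type*} [AddCommGroup A] {M : Type*} [AddCommGroup M]

theorem odd_fin (π : Γ →* Q) (T : MonoidAlgebra R Γ →+ A →+ M) (hT : ∀ x y, T (x * y) = T (y * x))
    {g : Q} (hg : IsOfFinOrder g) {t : Q → Q} (ht : ∀ y, IsConj y g → t y * y * (t y)⁻¹ = g) {k : ℕ}
    (hk : k ≠ 0) {c : (Fin (2 * k + 1 + 1) → Q) → A} (hc : IsClassCoc g c)
    (v u : Matrix d d (MonoidAlgebra R Γ)) (hvu : v * u = 1) (huv : u * v = 1) (N : ℕ)
    (hN : N ≠ 0) (hnt : ∀ p : ℕ, p.Prime → p ∣ N → ∀ y : Q, orderOf y ≠ p) :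
    ∃ y : M, k.factorial • odTau T g t c (fun q => v.map (part π q)) (fun q => u.map (part π q)) =
      N • y := by
  rw [← cm_coact π v, ← cm_coact π u]
  exact odTau_fin T hT hg ht hk hc _ _ (by rw [← map_mul, hvu, map_one])
    (by rw [← map_mul, huv, map_one]) N hN hnt

theorem odd_height (π : Γ →* Q) (T : MonoidAlgebra R Γ →+ A →+ M)
    (hT : ∀ x y, T (x * y) = T (y * x)) {g : Q}
    {t : Q → Q} (ht : ∀ y, IsConj y g → t y * y * (t y)⁻¹ = g) {k : ℕ}
    {c : (Fin (2 * k + 1 + 1) → Q) → A} (hc : IsClassCoc g c)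
    (v u : Matrix d d (MonoidAlgebra R Γ)) (hvu : v * u = 1) (huv : u * v = 1)
    (H : Subgroup Q) (hv : ∀ i j s, (v i j).coeff s ≠ 0 → π s ∈ H)
    (hu : ∀ i j s, (u i j).coeff s ≠ 0 → π s ∈ H)
    {p : ℕ} (hp : p.Prime) (b : ℕ)
    (hroot : ∀ y ∈ H, IsConj y g → ∀ x ∈ H, x ^ p ^ (b + 1) ≠ y) (m : ℕ) :
    ∃ y : M, (k.factorial * p ^ (2 * b)) •
      odTau T g t c (fun q => v.map (part π q)) (fun q => u.map (part π q)) = p ^ m • y := by
  classical
  have key : ∀ (X : Matrix d d (MonoidAlgebra R Γ)), (∀ i j s, (X i j).coeff s ≠ 0 → π s ∈ H) →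
      ∀ i j q, (((coact π).mapMatrix X) i j).coeff q ≠ 0 → q ∈ H := by
    intro X hX i j q h
    have h1 : (((coact π).mapMatrix X) i j).coeff q = part π q (X i j) := coact_coeff π (X i j) q
    rw [h1] at h
    by_contra hq
    apply h
    unfold part
    have h2 : (X i j).coeff.filter (fun s => π s = q) = 0 := by
      rw [Finsupp.filter_eq_zero_iff]
      intro s hs
      by_contra h3
      exact hq (hs ▸ hX i j s h3)
    rw [h2]
    rfl
  rw [← cm_coact π v, ← cm_coact π u]
  exact odTau_height T hT ht hc _ _ (by rw [← map_mul, hvu, map_one])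
    (by rw [← map_mul, huv, map_one]) H (key _ hv) (key _ hu) hp b hroot m

theorem even_fin (π : Γ →* Q) (T : MonoidAlgebra R Γ →+ A →+ M)
    (hT : ∀ x y, T (x * y) = T (y * x)) {g : Q}
    (hg : IsOfFinOrder g) {t : Q → Q} (ht : ∀ y, IsConj y g → t y * y * (t y)⁻¹ = g) {k : ℕ}
    (hk : k ≠ 0) {c : (Fin (2 * k + 1) → Q) → A} (hc : IsClassCoc g c)
    (e : Matrix d d (MonoidAlgebra R Γ)) (he : e * e = e) (N : ℕ) (hN : N ≠ 0) :
    ∃ y : M, (2 * k).descFactorial k • evTau T g t c (fun q => e.map (part π q)) = N • y := by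
  rw [← cm_coact π e]
  exact evTau_dvd T hT hg ht hk hc _ (by rw [← map_mul, he]) N hN

end Pool.Agent.Q202.KT
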